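import Pool.Agent.Helper67.DO.StmtsW
import Pool.Agent.Helper38.DO.Sev

/-!
# MP_d07457_gt, module W4: iterated contour integrals with a holomorphic parameter
-/

namespace Pool.Agent.Helper67.DO

open scoped BigOperators Real Topology
open MeasureTheory Set

noncomputable section

/-- parametric integrals over a compact interval of functions continuous on a product set -/
theorem w4_cont {X : Type} [TopologicalSpace X] {S : Set X} {a b : ℝ} (hab : a ≤ b) {f : X → ℝ → ℂ}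
    (hf : ContinuousOn (fun p : X × ℝ => f p.1 p.2) (S ×ˢ Icc a b)) :
    ContinuousOn (fun x => ∫ t in a..b, f x t) S := by
  rw [continuousOn_iff_continuous_domRestrict]
  have e : S.domRestrict (fun x => ∫ t in a..b, f x t)
      = fun x : S => ∫ t in a..b, f x (projIcc a b hab t) := by
    funext x
    show ∫ t in a..b, f x t = ∫ t in a..b, f x (projIcc a b hab t)
    refine intervalIntegral.integral_congr fun t ht => ?_
    rw [uIcc_of_le hab] at ht
    show f x t = f x (projIcc a b hab t)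
    rw [projIcc_of_mem hab ht]
  rw [e]
  apply intervalIntegral.continuous_parametric_intervalIntegral_of_continuous'
  have h1 : Continuous fun p : S × ℝ => ((p.1 : X), ((projIcc a b hab p.2 : Icc a b) : ℝ)) := by
    have := continuous_projIcc (a := a) (b := b) (h := hab)
    fun_prop
  exact hf.comp_continuous h1 fun p => ⟨p.1.2, (projIcc a b hab p.2).2⟩

/-- good functionals on functions on the contour set `C` -/
structure w4_G (C : Set ℂ) (L : ℝ) (Λ : (ℂ → ℂ) → ℂ) : Prop where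
  bd : ∀ (f : ℂ → ℂ) (B : ℝ), (∀ ζ ∈ C, ‖f ζ‖ ≤ B) → ‖Λ f‖ ≤ L * B
  ct : ∀ (X : Type) [TopologicalSpace X] (S : Set X) (K : X → ℂ → ℂ),
    ContinuousOn (fun p : X × ℂ => K p.1 p.2) (S ×ˢ C) → ContinuousOn (fun x => Λ (K x)) S
  hol : ∀ (p : ℕ) (U : Set (Fin p → ℂ)) (K : (Fin p → ℂ) → ℂ → ℂ), IsOpen U →
    ContinuousOn (fun x : (Fin p → ℂ) × ℂ => K x.1 x.2) (U ×ˢ C) →
    (∀ ζ ∈ C, DifferentiableOn ℂ (fun z => K z ζ) U) → DifferentiableOn ℂ (fun z => Λ (K z)) U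

theorem w4_zero : w4_G ∅ 0 (fun _ => 0) :=
  ⟨fun _ B _ => by simp, fun _ _ _ _ _ => continuousOn_const, fun _ _ _ _ _ _ => differentiableOn_const 0⟩

theorem w4_sub {C C' D : Set ℂ} {L L' : ℝ} {Λ Λ' : (ℂ → ℂ) → ℂ} (h : w4_G C L Λ) (h' : w4_G C' L' Λ')
    (hD : C ⊆ D) (hD' : C' ⊆ D) : w4_G D (L + L') (fun f => Λ f - Λ' f) where
  bd f B hB := by
    have h1 := h.bd f B fun ζ hζ => hB ζ (hD hζ)
    have h2 := h'.bd f B fun ζ hζ => hB ζ (hD' hζ)
    calc ‖Λ f - Λ' f‖ ≤ ‖Λ f‖ + ‖Λ' f‖ := norm_sub_le _ _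
      _ ≤ L * B + L' * B := add_le_add h1 h2
      _ = (L + L') * B := by ring
  ct X _ S K hK := (h.ct X S K (hK.mono (prod_mono le_rfl hD))).sub (h'.ct X S K (hK.mono (prod_mono le_rfl hD')))
  hol p U K hU hc hd := (h.hol p U K hU (hc.mono (prod_mono le_rfl hD)) fun ζ hζ => hd ζ (hD hζ)).sub
    (h'.hol p U K hU (hc.mono (prod_mono le_rfl hD')) fun ζ hζ => hd ζ (hD' hζ))

theorem w4_seg {C : Set ℂ} {a b : ℝ} (hab : a ≤ b) (c e : ℂ) {γ δ : ℝ → ℂ} (hγ : Continuous γ) (hδ : Continuous δ)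
    (h1 : ∀ x ∈ Icc a b, γ x ∈ C) (h2 : ∀ x ∈ Icc a b, δ x ∈ C) :
    w4_G C (‖c‖ * ((1 + ‖e‖) * |b - a|)) (fun f => c * ∫ x in a..b, (f (γ x) - e * f (δ x))) where
  bd f B hB := by
    have h3 : ‖∫ x in a..b, (f (γ x) - e * f (δ x))‖ ≤ ((1 + ‖e‖) * B) * |b - a| := by
      apply intervalIntegral.norm_integral_le_of_norm_le_const
      intro x hx
      have hx' : x ∈ Icc a b := by
        rw [uIoc_of_le hab] at hx
        exact Ioc_subset_Icc_self hx
      calc ‖f (γ x) - e * f (δ x)‖ ≤ ‖f (γ x)‖ + ‖e * f (δ x)‖ := norm_sub_le _ _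
        _ = ‖f (γ x)‖ + ‖e‖ * ‖f (δ x)‖ := by rw [norm_mul]
        _ ≤ B + ‖e‖ * B := by
          have := hB _ (h1 x hx')
          have := hB _ (h2 x hx')
          gcongr
        _ = (1 + ‖e‖) * B := by ring
    rw [norm_mul]
    calc ‖c‖ * ‖∫ x in a..b, (f (γ x) - e * f (δ x))‖ ≤ ‖c‖ * (((1 + ‖e‖) * B) * |b - a|) := by gcongr
      _ = ‖c‖ * ((1 + ‖e‖) * |b - a|) * B := by ring
  ct X _ S K hK := by
    refine continuousOn_const.mul (w4_cont hab ?_)
    have h3 : ContinuousOn (fun p : X × ℝ => K p.1 (γ p.2)) (S ×ˢ Icc a b) :=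
      hK.comp (f := fun p : X × ℝ => (p.1, γ p.2)) (by fun_prop) fun p hp => ⟨hp.1, h1 _ hp.2⟩
    have h4 : ContinuousOn (fun p : X × ℝ => K p.1 (δ p.2)) (S ×ˢ Icc a b) :=
      hK.comp (f := fun p : X × ℝ => (p.1, δ p.2)) (by fun_prop) fun p hp => ⟨hp.1, h2 _ hp.2⟩
    exact h3.sub (continuousOn_const.mul h4)
  hol p U K hU hc hd := by
    refine (differentiableOn_const c).mul
      (Pool.Agent.Helper38.DO.sev_param_differentiableOn hU (f := fun z x => K z (γ x) - e * K z (δ x)) ?_ ?_)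
    · rw [uIcc_of_le hab]
      have h3 : ContinuousOn (fun p : (Fin p → ℂ) × ℝ => K p.1 (γ p.2)) (U ×ˢ Icc a b) :=
        hc.comp (f := fun p : (Fin p → ℂ) × ℝ => (p.1, γ p.2)) (by fun_prop) fun p hp => ⟨hp.1, h1 _ hp.2⟩
      have h4 : ContinuousOn (fun p : (Fin p → ℂ) × ℝ => K p.1 (δ p.2)) (U ×ˢ Icc a b) :=
        hc.comp (f := fun p : (Fin p → ℂ) × ℝ => (p.1, δ p.2)) (by fun_prop) fun p hp => ⟨hp.1, h2 _ hp.2⟩
      exact h3.sub (continuousOn_const.mul h4)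
    · rw [uIcc_of_le hab]
      intro θ hθ
      exact (hd _ (h1 θ hθ)).sub ((differentiableOn_const e).mul (hd _ (h2 θ hθ)))

/-- horizontal double segments -/
theorem w4_hor {C : Set ℂ} {a b σ : ℝ} (hab : a ≤ b) (hσ : 0 < σ)
    (h1 : ∀ z : ℂ, |z.im| = σ → a ≤ z.re → z.re ≤ b → z ∈ C) :
    ∃ L, w4_G C L (fun f => ∫ x in a..b, (f (x - σ * Complex.I) - f (x + σ * Complex.I))) := by
  have := w4_seg (C := C) hab 1 1 (γ := fun x : ℝ => (x : ℂ) - σ * Complex.I)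
    (δ := fun x : ℝ => (x : ℂ) + σ * Complex.I) (by fun_prop) (by fun_prop)
    (fun x hx => h1 _ (by simp [abs_of_pos hσ]) (by simpa using hx.1) (by simpa using hx.2))
    (fun x hx => h1 _ (by simp [abs_of_pos hσ]) (by simpa using hx.1) (by simpa using hx.2))
  refine ⟨‖(1 : ℂ)‖ * ((1 + ‖(1 : ℂ)‖) * |b - a|), ?_⟩
  simpa only [one_mul] using this

/-- vertical segments -/
theorem w4_ver {C : Set ℂ} {c σ : ℝ} (hσ : 0 < σ) (h1 : ∀ z : ℂ, |z.im| ≤ σ → z.re = c → z ∈ C) :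
    ∃ L, w4_G C L (fun f => Complex.I * ∫ y in (-σ)..σ, f ((c : ℝ) + y * Complex.I)) := by
  have h2 : ∀ x ∈ Icc (-σ) σ, ((c : ℝ) : ℂ) + (x : ℝ) * Complex.I ∈ C :=
    fun x hx => h1 _ (by simpa [abs_le] using hx) (by simp)
  have := w4_seg (C := C) (show -σ ≤ σ by linarith) Complex.I 0 (γ := fun x : ℝ => ((c : ℝ) : ℂ) + x * Complex.I)
    (δ := fun x : ℝ => ((c : ℝ) : ℂ) + x * Complex.I) (by fun_prop) (by fun_prop) h2 h2
  refine ⟨‖Complex.I‖ * ((1 + ‖(0 : ℂ)‖) * |σ - -σ|), ?_⟩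
  simpa only [zero_mul, sub_zero] using this

theorem w4_pI (N : ℕ) (P G : Set ℤ) (r σ : ℝ) (hN : 0 < N) (hr : 0 < r) (hr' : r < 1 / (4 * N)) (hσ : 0 < σ)
    (p : Pc N) : ∃ L, w4_G (cP N P G r σ p) L (pI N P G r σ p) := by
  classical
  have hN' : (0 : ℝ) < N := Nat.cast_pos.2 hN
  rcases p with l | l
  · by_cases hG : ((l : ℕ) : ℤ) ∈ G
    · refine ⟨0, ?_⟩
      have e1 : pI N P G r σ (Sum.inl l) = fun _ => 0 := by
        funext f
        simp [pI, hG]
      have e2 : cP N P G r σ (Sum.inl l) = ∅ := by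
        ext z
        simp [cP, hG]
      rw [e1, e2]
      exact w4_zero
    · have e1 : pI N P G r σ (Sum.inl l) = fun f => ∫ x in (((l : ℕ) : ℝ) / N + r)..((((l : ℕ) : ℝ) + 1) / N - r),
          (f (x - σ * Complex.I) - f (x + σ * Complex.I)) := by
        funext f
        simp [pI, hG, gapI]
      rw [e1]
      refine w4_hor ?_ hσ ?_
      · have : r * (4 * N) < 1 := by rwa [lt_div_iff₀ (by positivity)] at hr'
        have h2 : r * 2 ≤ 1 / N := by
          rw [le_div_iff₀ hN']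
          nlinarith [mul_pos hr hN']
        have h3 : (((l : ℕ) : ℝ) + 1) / N = ((l : ℕ) : ℝ) / N + 1 / N := by ring
        rw [h3]
        linarith
      · intro z h1 h2 h3
        exact ⟨hG, h1, h2, h3⟩
  · by_cases hP : ((l : ℕ) : ℤ) ∈ P
    · have hL : ∃ L, w4_G (cP N P G r σ (Sum.inr l)) L
          (fun f => if (((l : ℕ) : ℤ) - 1) ∈ G then 0 else verL N r σ (l : ℕ) f) := by
        by_cases hG : (((l : ℕ) : ℤ) - 1) ∈ G
        · simp only [hG, if_true]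
          refine ⟨0 + 0, ?_⟩
          simpa using w4_sub (D := cP N P G r σ (Sum.inr l)) w4_zero w4_zero (empty_subset _) (empty_subset _)
        · simp only [hG, if_false]
          have e1 : (fun f => verL N r σ (l : ℕ) f) =
              fun f => Complex.I * ∫ y in (-σ)..σ, f (((((l : ℕ) : ℝ) / N - r : ℝ) : ℂ) + y * Complex.I) := by
            funext f
            simp [verL]
          rw [e1]
          refine w4_ver hσ fun z h1 h2 => ?_
          exact Or.inl (Or.inr ⟨hP, hG, h1, h2⟩)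
      have hR : ∃ L, w4_G (cP N P G r σ (Sum.inr l)) L
          (fun f => if ((l : ℕ) : ℤ) ∈ G then 0 else verR N r σ (l : ℕ) f) := by
        by_cases hG : ((l : ℕ) : ℤ) ∈ G
        · simp only [hG, if_true]
          refine ⟨0 + 0, ?_⟩
          simpa using w4_sub (D := cP N P G r σ (Sum.inr l)) w4_zero w4_zero (empty_subset _) (empty_subset _)
        · simp only [hG, if_false]
          have e1 : (fun f => verR N r σ (l : ℕ) f) =
              fun f => Complex.I * ∫ y in (-σ)..σ, f (((((l : ℕ) : ℝ) / N + r : ℝ) : ℂ) + y * Complex.I) := by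
            funext f
            simp [verR]
          rw [e1]
          refine w4_ver hσ fun z h1 h2 => ?_
          exact Or.inr ⟨hP, hG, h1, h2⟩
      obtain ⟨L1, h1⟩ := hL
      obtain ⟨L2, h2⟩ := hR
      refine ⟨L1 + L2, ?_⟩
      have e1 : pI N P G r σ (Sum.inr l) = fun f => (if (((l : ℕ) : ℤ) - 1) ∈ G then 0 else verL N r σ (l : ℕ) f)
          - (if ((l : ℕ) : ℤ) ∈ G then 0 else verR N r σ (l : ℕ) f) := by
        funext f
        simp [pI, hP]
      rw [e1]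
      exact w4_sub h1 h2 le_rfl le_rfl
    · have e1 : pI N P G r σ (Sum.inr l) = fun f => ∫ x in (((l : ℕ) : ℝ) / N - r)..(((l : ℕ) : ℝ) / N + r),
          (f (x - σ * Complex.I) - f (x + σ * Complex.I)) := by
        funext f
        simp [pI, hP, capI]
      rw [e1]
      refine w4_hor (by linarith) hσ fun z h1 h2 h3 => ?_
      exact Or.inl (Or.inl ⟨hP, h1, by rw [abs_le]; constructor <;> linarith⟩)

/-- good functionals on functions of `q` variables -/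
structure w4_Gq (q : ℕ) (C : Set (Fin q → ℂ)) (L : ℝ) (Λ : ((Fin q → ℂ) → ℂ) → ℂ) : Prop where
  bd : ∀ (f : (Fin q → ℂ) → ℂ) (B : ℝ), (∀ ζ ∈ C, ‖f ζ‖ ≤ B) → ‖Λ f‖ ≤ L * B
  ct : ∀ (X : Type) [TopologicalSpace X] (S : Set X) (K : X → (Fin q → ℂ) → ℂ),
    ContinuousOn (fun p : X × (Fin q → ℂ) => K p.1 p.2) (S ×ˢ C) → ContinuousOn (fun x => Λ (K x)) S
  hol : ∀ (p : ℕ) (U : Set (Fin p → ℂ)) (K : (Fin p → ℂ) → (Fin q → ℂ) → ℂ), IsOpen U →
    ContinuousOn (fun x : (Fin p → ℂ) × (Fin q → ℂ) => K x.1 x.2) (U ×ˢ C) →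
    (∀ ζ ∈ C, DifferentiableOn ℂ (fun z => K z ζ) U) → DifferentiableOn ℂ (fun z => Λ (K z)) U

theorem w4_cons {q : ℕ} {Y : Type} [TopologicalSpace Y] {f : Y → ℂ} {g : Y → Fin q → ℂ} (hf : Continuous f)
    (hg : Continuous g) : Continuous fun y => (Fin.cons (f y) (g y) : Fin (q + 1) → ℂ) := by
  refine continuous_pi fun j => ?_
  refine Fin.cases ?_ (fun i => ?_) j
  · simpa only [Fin.cons_zero] using hf
  · simp only [Fin.cons_succ]
    exact (continuous_apply i).comp hg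

theorem w4_it (N : ℕ) (P G : Set ℤ) (r σ : ℝ) (hN : 0 < N) (hr : 0 < r) (hr' : r < 1 / (4 * N)) (hσ : 0 < σ)
    (q : ℕ) : ∀ τ : Fin q → Pc N, ∃ L, w4_Gq q {ζ | ∀ j, ζ j ∈ cP N P G r σ (τ j)} L (itI N P G r σ q τ) := by
  induction q with
  | zero =>
    intro τ
    refine ⟨1, ⟨fun f B hB => ?_, fun X _ S K hK => ?_, fun p U K hU hc hd => ?_⟩⟩
    · rw [one_mul]
      exact hB _ fun j => j.elim0
    · exact hK.comp (f := fun x : X => (x, (fun i => i.elim0 : Fin 0 → ℂ))) (by fun_prop)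
        fun x hx => ⟨hx, fun j => j.elim0⟩
    · exact hd _ fun j => j.elim0
  | succ q ih =>
    intro τ
    obtain ⟨L0, h0⟩ := w4_pI N P G r σ hN hr hr' hσ (τ 0)
    obtain ⟨L1, h1⟩ := ih fun i => τ i.succ
    have hmem : ∀ ζ ∈ cP N P G r σ (τ 0), ∀ v : Fin q → ℂ, (∀ j, v j ∈ cP N P G r σ (τ j.succ)) →
        (Fin.cons ζ v : Fin (q + 1) → ℂ) ∈ {ζ : Fin (q + 1) → ℂ | ∀ j, ζ j ∈ cP N P G r σ (τ j)} := by
      intro ζ hζ v hv j
      refine Fin.cases ?_ (fun i => ?_) j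
      · simpa using hζ
      · simpa using hv i
    refine ⟨L0 * L1, ⟨fun f B hB => ?_, fun X _ S K hK => ?_, fun p U K hU hc hd => ?_⟩⟩
    · rw [mul_assoc]
      refine h0.bd _ _ fun ζ hζ => ?_
      exact h1.bd _ _ fun v hv => hB _ (hmem ζ hζ v hv)
    · refine h0.ct X S (fun x ζ => itI N P G r σ q (fun i => τ i.succ) (fun v => K x (Fin.cons ζ v))) ?_
      refine h1.ct (X × ℂ) (S ×ˢ cP N P G r σ (τ 0)) (fun x v => K x.1 (Fin.cons x.2 v)) ?_
      refine hK.comp (f := fun x : (X × ℂ) × (Fin q → ℂ) => (x.1.1, (Fin.cons x.1.2 x.2 : Fin (q + 1) → ℂ))) ?_ ?_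
      · exact Continuous.continuousOn (continuous_fst.fst.prodMk (w4_cons continuous_fst.snd continuous_snd))
      · rintro ⟨⟨x, ζ⟩, v⟩ ⟨⟨hx, hζ⟩, hv⟩
        exact ⟨hx, hmem ζ hζ v hv⟩
    · refine h0.hol p U (fun x ζ => itI N P G r σ q (fun i => τ i.succ) (fun v => K x (Fin.cons ζ v))) hU ?_ ?_
      · refine h1.ct ((Fin p → ℂ) × ℂ) (U ×ˢ cP N P G r σ (τ 0)) (fun x v => K x.1 (Fin.cons x.2 v)) ?_
        refine hc.comp (f := fun x : ((Fin p → ℂ) × ℂ) × (Fin q → ℂ) =>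
          (x.1.1, (Fin.cons x.1.2 x.2 : Fin (q + 1) → ℂ))) ?_ ?_
        · exact Continuous.continuousOn (continuous_fst.fst.prodMk (w4_cons continuous_fst.snd continuous_snd))
        · rintro ⟨⟨x, ζ⟩, v⟩ ⟨⟨hx, hζ⟩, hv⟩
          exact ⟨hx, hmem ζ hζ v hv⟩
      · intro ζ hζ
        refine h1.hol p U (fun x v => K x (Fin.cons ζ v)) hU ?_ fun v hv => hd _ (hmem ζ hζ v hv)
        refine hc.comp (f := fun x : (Fin p → ℂ) × (Fin q → ℂ) => (x.1, (Fin.cons ζ x.2 : Fin (q + 1) → ℂ))) ?_ ?_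
        · exact Continuous.continuousOn (continuous_fst.prodMk (w4_cons continuous_const continuous_snd))
        · rintro ⟨x, v⟩ ⟨hx, hv⟩
          exact ⟨hx, hmem ζ hζ v hv⟩

theorem st_W4 : ST_W4 := by
  intro N q p P G r σ hN hr hr' hσ τ
  obtain ⟨L, h⟩ := w4_it N P G r σ hN hr hr' hσ q τ
  exact ⟨L, fun U K hU hc hd => ⟨h.hol p U K hU hc hd, fun B hB z hz => h.bd _ _ fun ζ hζ => hB z hz ζ hζ⟩⟩

end

end Pool.Agent.Helper67.DO
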